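import Pool.Agent.Run7.h450.CE.Iface

/-!
# Project CE, piece LO: the lower bound `log r(A) ≤ ht_nuc(θ_A)`
-/

open Filter Topology Matrix
open scoped ComplexOrder

namespace Run7.h682.CE

open Run7.h450.CE

/-- powers of an irreducible matrix do not vanish -/
lemma pow_pos_entry {N : ℕ} {A : Matrix (Fin N) (Fin N) ℕ} (hN : 0 < N) (hA : Irred A) (n : ℕ) :
    0 < ∑ i, ∑ j, (A ^ n) i j := by
  let i₀ : Fin N := ⟨0, hN⟩
  obtain ⟨m, hm, h⟩ := hA i₀ i₀
  have hk : ∀ k : ℕ, 0 < (A ^ (m * k)) i₀ i₀ := by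
    intro k
    induction k with
    | zero => simp
    | succ k ih =>
      rw [Nat.mul_succ, pow_add, Matrix.mul_apply]
      exact lt_of_lt_of_le (Nat.mul_pos ih h)
        (Finset.single_le_sum (f := fun l => (A ^ (m * k)) i₀ l * (A ^ m) l i₀)
          (fun _ _ => Nat.zero_le _) (Finset.mem_univ i₀))
  by_contra hc
  have h0 : ∑ i, ∑ j, (A ^ n) i j = 0 := by omega
  have hz : A ^ n = 0 := by
    ext i j
    have h1 := (Finset.sum_eq_zero_iff.1 h0) i (Finset.mem_univ i)
    exact (Finset.sum_eq_zero_iff.1 h1) j (Finset.mem_univ j)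
  have hmn : m * n = n + (m * n - n) := by
    have : n ≤ m * n := Nat.le_mul_of_pos_left n hm
    omega
  have := hk n
  rw [hmn, pow_add, hz, zero_mul] at this
  simp at this

/-- the real estimate -/
lemma choose_consts (N : ℕ) (η : ℝ) (hN : 0 < N) (hη : 0 < η) : ∃ t ε : ℝ, 0 ≤ t ∧ 0 < ε ∧ ε < 1 ∧
    -η ≤ t * ((1 - ε) / (1 + 2 * ε)) - Real.log ((N : ℝ) - 1 + Real.exp t) := by
  have hN1 : (1 : ℝ) ≤ N := by exact_mod_cast hN
  have h1 : Tendsto (fun t : ℝ => ((N : ℝ) - 1) * Real.exp (-t)) atTop (𝓝 (((N : ℝ) - 1) * 0)) :=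
    tendsto_const_nhds.mul Real.tendsto_exp_neg_atTop_nhds_zero
  rw [mul_zero] at h1
  obtain ⟨t, ht1, ht0⟩ := ((h1.eventually_lt_const (by positivity : (0 : ℝ) < η / 2)).and
    (eventually_ge_atTop (0 : ℝ))).exists
  refine ⟨t, min (1 / 2) (η / (6 * (t + 1))), ht0, by positivity, ?_, ?_⟩
  · exact (min_le_left _ _).trans_lt (by norm_num)
  · set ε := min (1 / 2) (η / (6 * (t + 1))) with hε
    have he : 0 < ε := by positivity
    have he2 : ε ≤ η / (6 * (t + 1)) := min_le_right _ _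
    have hlog : Real.log ((N : ℝ) - 1 + Real.exp t) ≤ t + η / 2 := by
      rw [Real.log_le_iff_le_exp (by have := Real.exp_pos t; linarith), Real.exp_add]
      have h2 : (N : ℝ) - 1 + Real.exp t = Real.exp t * (((N : ℝ) - 1) * Real.exp (-t) + 1) := by
        have : Real.exp t * Real.exp (-t) = 1 := by rw [← Real.exp_add]; simp
        linear_combination (-((N : ℝ) - 1)) * this
      rw [h2]
      apply mul_le_mul_of_nonneg_left _ (Real.exp_pos t).le
      have := Real.add_one_le_exp (η / 2)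
      linarith
    have hr : t * (1 - (1 - ε) / (1 + 2 * ε)) ≤ η / 2 := by
      have h3 : 1 - (1 - ε) / (1 + 2 * ε) ≤ 3 * ε := by
        have : 1 - (1 - ε) / (1 + 2 * ε) = 3 * ε / (1 + 2 * ε) := by
          field_simp
          ring
        rw [this, div_le_iff₀ (by positivity)]
        nlinarith
      have h4 : ε * (6 * (t + 1)) ≤ η := by
        rwa [le_div_iff₀ (by positivity)] at he2
      nlinarith
    linarith

/-- piece LO -/
theorem t_LO : S_LOW → S_WRD → S_GR2 → S_LO := by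
  intro hLOW hWRD hGR N A B _ _ S h01 hirr hCK d
  have hN : 0 < N := by
    rcases Nat.eq_zero_or_pos N with h | h
    · subst h
      have := hCK.sum_one
      rw [Finset.univ_eq_empty, Finset.sum_empty] at this
      exact absurd this zero_ne_one
    · exact h
  rw [← EReal.ge_of_forall_gt_iff_ge]
  intro z hz
  have hz' : z < Real.log (rA A) := by exact_mod_cast hz
  obtain ⟨t, ε, ht, hε, hε1, hest⟩ := choose_consts N (Real.log (rA A) - z) hN (by linarith)
  set ρ : ℝ := (1 - ε) / (1 + 2 * ε) with hρ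
  have hQ : 0 < (N : ℝ) - 1 + Real.exp t := by
    have hN1 : (1 : ℝ) ≤ N := by exact_mod_cast hN
    have := Real.exp_pos t
    linarith
  set Q : ℝ := (N : ℝ) - 1 + Real.exp t with hQdef
  classical
  set F : Finset B := insert 1 (Finset.univ.image (PP S)) with hF
  have hW : ∀ n : ℕ, (0 : ℝ) < ∑ i, ∑ j, ((A ^ n) i j : ℝ) := by
    intro n
    have := pow_pos_entry hN hirr n
    exact_mod_cast this
  -- the lower bound for the ranks
  have key : ∀ n : ℕ, ENNReal.ofReal ((∑ i, ∑ j, ((A ^ n) i j : ℝ)) *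
      Real.exp (t * ((n + 1) * ρ)) / Q ^ (n + 1)) ≤ rnuc d (orb (theta S) F (n + 1)) ε := by
    intro n
    unfold rnuc
    refine le_iInf₂ fun s hs => ?_
    rw [ENNReal.ofReal_le_natCast, div_le_iff₀ (pow_pos hQ _)]
    have h1 : ‖s.T 1 - 1‖ ≤ ε := by
      refine (hs 1 ⟨0, by omega, 1, ?_, rfl⟩).le
      rw [hF]
      exact Finset.mem_insert_self _ _
    have h2 : ∀ (k : ℕ) (a : Fin N), k < n + 1 →
        ‖s.T ((theta S)^[k] (PP S a)) - (theta S)^[k] (PP S a)‖ ≤ ε := by
      intro k a hk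
      refine (hs _ ⟨k, hk, PP S a, ?_, rfl⟩).le
      rw [hF]
      exact Finset.mem_insert_of_mem (Finset.mem_image_of_mem _ (Finset.mem_univ a))
    have h3 := hLOW N A B S hN h01 hirr hCK d s n ε t hε hε1 ht h1 h2
    rw [hWRD N A h01 n] at h3
    push_cast at h3
    exact h3
  -- the real sequence
  have hlim : Tendsto (fun n : ℕ => ((Real.log (∑ i, ∑ j, ((A ^ n) i j : ℝ)) / ((n : ℝ) + 1) +
      (t * ρ - Real.log Q) : ℝ) : EReal)) atTop
      (𝓝 ((Real.log (rA A) + (t * ρ - Real.log Q) : ℝ) : EReal)) := by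
    rw [EReal.tendsto_coe]
    exact (hGR N A hN h01 hirr).add_const _
  have hle : ∀ n : ℕ, ((Real.log (∑ i, ∑ j, ((A ^ n) i j : ℝ)) / ((n : ℝ) + 1) +
      (t * ρ - Real.log Q) : ℝ) : EReal) ≤
      ENNReal.log (rnuc d (orb (theta S) F (n + 1)) ε) / (((n + 1 : ℕ) : ℕ) : EReal) := by
    intro n
    have h1 := ENNReal.log_monotone (key n)
    have hpos : 0 < (∑ i, ∑ j, ((A ^ n) i j : ℝ)) * Real.exp (t * ((n + 1) * ρ)) / Q ^ (n + 1) :=
      div_pos (mul_pos (hW n) (Real.exp_pos _)) (pow_pos hQ _)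
    rw [ENNReal.log_ofReal_of_pos hpos] at h1
    have h2 := EReal.div_le_div_right_of_nonneg (c := (((n + 1 : ℕ) : ℕ) : EReal))
      (by positivity) h1
    refine le_trans (le_of_eq ?_) h2
    have hc : (((n + 1 : ℕ) : ℕ) : EReal) = (((n : ℝ) + 1 : ℝ) : EReal) := by
      push_cast
      rfl
    rw [hc, ← EReal.coe_div]
    congr 1
    rw [Real.log_div (mul_pos (hW n) (Real.exp_pos _)).ne' (pow_pos hQ _).ne',
      Real.log_mul (hW n).ne' (Real.exp_pos _).ne', Real.log_exp, Real.log_pow]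
    have hn : (n : ℝ) + 1 ≠ 0 := by positivity
    push_cast
    field_simp
    ring
  have hfin : ((Real.log (rA A) + (t * ρ - Real.log Q) : ℝ) : EReal) ≤ htNuc d (theta S) := by
    unfold htNuc
    refine le_iSup₂_of_le F ε (le_iSup_of_le hε ?_)
    rw [← limsup_nat_add _ 1, ← hlim.limsup_eq]
    exact limsup_le_limsup (Eventually.of_forall hle)
  refine le_trans ?_ hfin
  rw [EReal.coe_le_coe_iff]
  linarith

end Run7.h682.CE
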