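import Pool.Agent.Run7.h450.CE.Iface

/-!
# Project CE, piece UP: the upper bound `ht_nuc(θ_A) ≤ log r(A)`
-/

open Filter Topology Matrix
open scoped ComplexOrder

namespace Run7.h682.CE

open Run7.h450.CE

section proj

variable {N : ℕ} {A : Matrix (Fin N) (Fin N) ℕ} {B : Type} [CStarAlgebra B] {S : Fin N → B}

lemma PP_star (i : Fin N) : star (PP S i) = PP S i := by simp [PP]

lemma PP_idem (hS : CK A S) (i : Fin N) : PP S i * PP S i = PP S i := by
  unfold PP
  rw [← mul_assoc, hS.isom]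

lemma PP_sum (hS : CK A S) : ∑ i, PP S i = 1 := hS.sum_one

attribute [local instance] CStarAlgebra.spectralOrder CStarAlgebra.spectralOrderedRing in
lemma PP_orth (hS : CK A S) {i j : Fin N} (hij : i ≠ j) : PP S i * PP S j = 0 := by
  have h1 : PP S j = ∑ k, PP S j * PP S k * PP S j := by
    rw [← Finset.sum_mul, ← Finset.mul_sum, PP_sum hS, mul_one, PP_idem hS]
  rw [← Finset.add_sum_erase _ _ (Finset.mem_univ j), PP_idem hS, PP_idem hS] at h1
  have h2 : ∑ k ∈ Finset.univ.erase j, PP S j * PP S k * PP S j = 0 := by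
    have := h1
    rw [left_eq_add] at this
    exact this
  have h3 : ∀ k, PP S j * PP S k * PP S j = star (PP S k * PP S j) * (PP S k * PP S j) := by
    intro k
    rw [star_mul, PP_star, PP_star]
    calc PP S j * PP S k * PP S j = PP S j * (PP S k * PP S k) * PP S j := by rw [PP_idem hS]
      _ = PP S j * PP S k * (PP S k * PP S j) := by simp only [mul_assoc]
  have h4 := (Finset.sum_eq_zero_iff_of_nonneg (fun k _ => by
    rw [h3 k]
    exact star_mul_self_nonneg _)).1 h2 i (Finset.mem_erase.2 ⟨hij, Finset.mem_univ i⟩)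
  rw [h3 i] at h4
  exact CStarRing.star_mul_self_eq_zero_iff _ |>.1 h4

lemma PP_mul (hS : CK A S) (i j : Fin N) : PP S i * PP S j = if i = j then PP S i else 0 := by
  split_ifs with h
  · rw [← h, PP_idem hS]
  · exact PP_orth hS h

lemma Tst_sub (D D' : B → B) (x : B) : Tst S (fun y => D y - D' y) x = Tst S D x - Tst S D' x := by
  unfold Tst
  rw [← Finset.sum_sub_distrib]
  refine Finset.sum_congr rfl fun i _ => ?_
  rw [← Finset.sum_sub_distrib]
  refine Finset.sum_congr rfl fun j _ => ?_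
  rw [mul_sub, sub_mul]

lemma Tst_id (hS : CK A S) : Tst S (fun y => y) = fun y => y := by
  ext x
  unfold Tst
  have h : ∀ i, ∑ j, S i * (star (S i) * x * S j) * star (S j) = PP S i * x := by
    intro i
    have : ∀ j, S i * (star (S i) * x * S j) * star (S j) = PP S i * x * PP S j := fun j => by
      unfold PP
      simp only [mul_assoc]
    simp only [this]
    rw [← Finset.mul_sum, PP_sum hS, mul_one]
  simp only [h]
  rw [← Finset.sum_mul, PP_sum hS, one_mul]

lemma Tst_iter (hS : CK A S) (D : B → B) (m : ℕ) :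
    (Tst S)^[m] (fun y => D y - y) = fun x => (Tst S)^[m] D x - x := by
  induction m with
  | zero => rfl
  | succ m ih =>
    rw [Function.iterate_succ_apply', Function.iterate_succ_apply', ih]
    ext x
    rw [Tst_sub, Tst_id hS]

/-- the map of a compatible system as a linear map -/
noncomputable def TL {d : ℕ} {P : Fin N → B} (c : CSys d B P) : B →ₗ[ℂ] B where
  toFun := c.T
  map_add' z w := by
    simp only [CSys.T, map_add, Matrix.add_apply, add_smul, Finset.sum_add_distrib]
  map_smul' a z := by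
    simp only [CSys.T, map_smul, Matrix.smul_apply, smul_eq_mul, mul_smul, Finset.smul_sum,
      RingHom.id_apply]

end proj

/-- the iterated systems -/
lemma iter (hST : S_STEP) {d N : ℕ} {A : Matrix (Fin N) (Fin N) ℕ} {B : Type} [CStarAlgebra B]
    {S : Fin N → B} (h01 : ZeroOne A) (hS : CK A S) (c : CSys d B (PP S)) (m : ℕ) :
    ∃ c' : CSys d B (PP S), c'.T = (Tst S)^[m] c.T ∧ ∀ i, c'.cnt i = ((A ^ m).mulVec c.cnt) i := by
  induction m with
  | zero => exact ⟨c, rfl, fun i => by simp⟩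
  | succ m ih =>
    obtain ⟨c₁, h1, h2⟩ := ih
    obtain ⟨c₂, h3, h4⟩ := hST d N A B S h01 hS c₁
    refine ⟨c₂, ?_, ?_⟩
    · ext z
      rw [h3, Function.iterate_succ_apply', h1]
    · intro i
      rw [h4, pow_succ', ← Matrix.mulVec_mulVec]
      simp only [Matrix.mulVec, dotProduct, h2]

/-- piece UP -/
theorem t_UP : S_INI → S_TN → S_TOS → S_STEP → S_GOOD → S_GR1 → S_UP := by
  intro hINI hTN hTOS hST hGOOD hGR N A B _ _ S h01 hirr hCK d hd
  have hN : 0 < N := by
    rcases Nat.eq_zero_or_pos N with h | h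
    · subst h
      have := hCK.sum_one
      rw [Finset.univ_eq_empty, Finset.sum_empty] at this
      exact absurd this zero_ne_one
    · exact h
  unfold htNuc
  refine iSup_le fun F => iSup_le fun ε => iSup_le fun hε => ?_
  classical
  -- the constants
  have hC : (0 : ℝ) < d + 2 := by positivity
  choose E δ r hδ hG using fun b : B => hGOOD N A B S h01 hCK b (ε / 2) (d + 2) (by positivity) hC
  obtain ⟨δ₀, hδ₀, hδle⟩ : ∃ δ₀ : ℝ, 0 < δ₀ ∧ ∀ b ∈ F, δ₀ ≤ δ b := by
    induction F using Finset.induction_on with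
    | empty => exact ⟨1, one_pos, fun b hb => absurd hb (Finset.notMem_empty b)⟩
    | insert a s _ ih =>
      obtain ⟨δ₁, h1, h2⟩ := ih
      refine ⟨min δ₁ (δ a), lt_min h1 (hδ a), fun b hb => ?_⟩
      rcases Finset.mem_insert.1 hb with h | h
      · subst h
        exact min_le_right _ _
      · exact (min_le_left _ _).trans (h2 b h)
  set r₀ : ℕ := F.sup r with hr₀
  have hrle : ∀ b ∈ F, r b ≤ r₀ := fun b hb => Finset.le_sup hb
  obtain ⟨c, hc⟩ := hINI d B N (PP S) PP_star (PP_mul hCK) (PP_sum hCK) hd (F.biUnion E) δ₀ hδ₀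
  -- the linear map
  let D : B →ₗ[ℂ] B := TL c - LinearMap.id
  have hD : (D : B → B) = fun y => c.T y - y := rfl
  have hDm : ∀ (m : ℕ) (z : B), (Tst S)^[m] D z = (Tst S)^[m] c.T z - z := by
    intro m z
    rw [hD, Tst_iter hCK]
  have hb1 : ∀ (m : ℕ) (z : B), ‖(Tst S)^[m] D z‖ ≤ ((d : ℝ) + 2) * ‖z‖ := by
    intro m z
    obtain ⟨c', h1, _⟩ := iter hST h01 hCK c m
    rw [hDm, ← h1]
    calc ‖c'.T z - z‖ ≤ ‖c'.T z‖ + ‖z‖ := norm_sub_le _ _
      _ ≤ (d + 1) * ‖z‖ + ‖z‖ := by
        have := hTN d N B (PP S) c' z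
        linarith
      _ = ((d : ℝ) + 2) * ‖z‖ := by ring
  have hb2 : ∀ b ∈ F, ∀ z ∈ E b, ‖D z‖ ≤ δ b := by
    intro b hb z hz
    have := hc z (Finset.mem_biUnion.2 ⟨b, hb, hz⟩)
    exact this.trans (hδle b hb)
  refine le_trans ?_ ((hGR N A hN h01 hirr).2 c.cnt r₀)
  refine limsup_le_limsup (Eventually.of_forall fun n => ?_)
  apply EReal.div_le_div_right_of_nonneg (by positivity)
  apply ENNReal.log_monotone
  obtain ⟨c', h1, h2⟩ := iter hST h01 hCK c (n + r₀)
  obtain ⟨s, h3, h4⟩ := hTOS d N B (PP S) c'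
  have hs : ∀ b ∈ orb (theta S) F n, ‖s.T b - b‖ < ε := by
    rintro _ ⟨j, hj, b, hb, rfl⟩
    have h5 := hG b D hb1 (hb2 b hb) (n + r₀) j (by have := hrle b hb; omega)
    rw [hDm, ← h1, ← h3] at h5
    linarith
  have h5 : (s.rank : ENNReal) = ((∑ i, ((A ^ (n + r₀)).mulVec c.cnt) i : ℕ) : ENNReal) := by
    rw [h4]
    congr 1
    exact Finset.sum_congr rfl fun i _ => h2 i
  rw [← h5]
  exact iInf₂_le s hs

end Run7.h682.CE
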